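import Pool.Agent.T2H36.DD.D4

set_option autoImplicit false
set_option linter.unusedSectionVars false
set_option linter.style.haveILetI false

/-!
Several orthogonal summands, part 5: the final theorem.
-/

open MvPolynomial Matrix Filter Topology NumberField IsDedekindDomain
open Pool.Agent.Y142.ZO Pool.Agent.Y142.ZI
open Pool.Agent.Y142.ZS (Sim SpLie)
open Pool.Agent.Y95.MT
open Pool.Agent.W544.PG (HS BD bl)
open Pool.Agent.T2H36.MG (blk InG)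

namespace Pool.Agent.T2H36.IX

open Pool.Agent.R932 Pool.Agent.R932.OP

/-- isometries of the rational and of the integral form -/
theorem iso_iff {n : ℕ} {T : HS n} {D : ℕ} {Z : Matrix (Fin n) (Fin n) ℤ} (hD : D ≠ 0)
    (hZ : Z.map (Int.cast : ℤ → ℚ) = (D : ℚ) • T.Q) (ℓ : ℕ) [Fact ℓ.Prime]
    (u : Matrix (Fin n) (Fin n) ℤ_[ℓ]) :
    ((qm u)ᵀ * T.Q.map (algebraMap ℚ ℚ_[ℓ]) * qm u = T.Q.map (algebraMap ℚ ℚ_[ℓ]) ↔
      uᵀ * Z.map (Int.cast : ℤ → ℤ_[ℓ]) * u = Z.map (Int.cast : ℤ → ℤ_[ℓ])) := by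
  have hinj : Function.Injective (algebraMap ℤ_[ℓ] ℚ_[ℓ]) := Subtype.val_injective
  have h1 : (Z.map (Int.cast : ℤ → ℤ_[ℓ])).map (algebraMap ℤ_[ℓ] ℚ_[ℓ]) =
      (D : ℚ_[ℓ]) • T.Q.map (algebraMap ℚ ℚ_[ℓ]) := by
    ext a b
    have h2 := congrFun (congrFun hZ a) b
    rw [Matrix.map_apply, Matrix.smul_apply, smul_eq_mul] at h2
    rw [Matrix.map_apply, Matrix.map_apply, Matrix.smul_apply, Matrix.map_apply, smul_eq_mul,
      map_intCast]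
    have h3 := congrArg (algebraMap ℚ ℚ_[ℓ]) h2
    rw [map_mul, map_intCast, map_natCast] at h3
    exact h3
  have hD' : (D : ℚ_[ℓ]) ≠ 0 := by exact_mod_cast hD
  have h2 : (uᵀ * Z.map (Int.cast : ℤ → ℤ_[ℓ]) * u).map (algebraMap ℤ_[ℓ] ℚ_[ℓ]) =
      (D : ℚ_[ℓ]) • ((qm u)ᵀ * T.Q.map (algebraMap ℚ ℚ_[ℓ]) * qm u) := by
    rw [Matrix.map_mul, Matrix.map_mul, h1, Matrix.transpose_map]
    show (qm u)ᵀ * ((D : ℚ_[ℓ]) • T.Q.map (algebraMap ℚ ℚ_[ℓ])) * qm u = _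
    rw [mul_smul_comm, smul_mul_assoc]
  constructor
  · intro h
    apply Matrix.map_injective hinj
    show (uᵀ * Z.map (Int.cast : ℤ → ℤ_[ℓ]) * u).map (algebraMap ℤ_[ℓ] ℚ_[ℓ]) =
      (Z.map (Int.cast : ℤ → ℤ_[ℓ])).map (algebraMap ℤ_[ℓ] ℚ_[ℓ])
    rw [h2, h1, h]
  · intro h
    rw [h, h1] at h2
    exact (smul_right_injective _ hD' h2).symm

/-- the integral form is symmetric -/
theorem z_symm {n : ℕ} {T : HS n} {D : ℕ} {Z : Matrix (Fin n) (Fin n) ℤ}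
    (hZ : Z.map (Int.cast : ℤ → ℚ) = (D : ℚ) • T.Q) : Zᵀ = Z := by
  have h1 : (Z.map (Int.cast : ℤ → ℚ))ᵀ = Z.map (Int.cast : ℤ → ℚ) := by
    rw [hZ, transpose_smul, T.symm]
  ext a b
  have h2 := congrFun (congrFun h1 a) b
  rw [Matrix.transpose_apply, Matrix.map_apply, Matrix.map_apply] at h2
  rw [Matrix.transpose_apply]
  exact_mod_cast h2

/-- the integral form is nondegenerate -/
theorem z_det {n : ℕ} {T : HS n} {D : ℕ} {Z : Matrix (Fin n) (Fin n) ℤ} (hD : D ≠ 0)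
    (hZ : Z.map (Int.cast : ℤ → ℚ) = (D : ℚ) • T.Q) (ℓ : ℕ) [Fact ℓ.Prime] :
    (Z.map (Int.cast : ℤ → ℤ_[ℓ])).det ≠ 0 := by
  have h1 : (Z.map (Int.cast : ℤ → ℚ)).det ≠ 0 := by
    rw [hZ, Matrix.det_smul]
    exact mul_ne_zero (pow_ne_zero _ (by exact_mod_cast hD)) (Pool.Agent.W74.PG.det_ne T)
  have h2 : (Z.map (Int.cast : ℤ → ℚ)).det = ((Z.det : ℤ) : ℚ) := by
    have := (Int.castRingHom ℚ).map_det Z
    rw [RingHom.mapMatrix_apply] at this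
    exact this.symm
  have h3 : (Z.map (Int.cast : ℤ → ℤ_[ℓ])).det = ((Z.det : ℤ) : ℤ_[ℓ]) := by
    have := (Int.castRingHom ℤ_[ℓ]).map_det Z
    rw [RingHom.mapMatrix_apply] at this
    exact this.symm
  rw [h3]
  rw [h2] at h1
  have h4 : Z.det ≠ 0 := by exact_mod_cast h1
  exact_mod_cast h4

section final

variable {K : Type} [Field K] [NumberField K] {κ : Type} [Fintype κ] [DecidableEq κ] {ι : Type}
  [Fintype ι] [DecidableEq ι] {n : ι → ℕ} {S : Set (HeightOneSpectrum (𝓞 K))}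
  {P : ι → HeightOneSpectrum (𝓞 K) → Polynomial ℚ} {Γ : Type} [Group Γ] [TopologicalSpace Γ]
  [IsTopologicalGroup Γ] [CompactSpace Γ] {s : GK K →* Γ} {T : ∀ i, HS (n i)}

/-- **from one prime to the adelic statement at 100 percent of the primes, several summands** -/
theorem main_sum (hB : MG.Big κ (fun i => (T i).Q) (hSum κ T)) (hS : S.Finite) (hs : Continuous s)
    (α : ∀ (ℓ : ℕ) [Fact ℓ.Prime], Γ →* Matrix κ κ ℤ_[ℓ])
    (hα : ∀ (ℓ : ℕ) [Fact ℓ.Prime], (Set.range (α ℓ)).Finite)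
    (β : ∀ (i : ι) (ℓ : ℕ) [Fact ℓ.Prime], Γ →* Matrix (Fin (n i)) (Fin (n i)) ℤ_[ℓ])
    (hβ : ∀ (i : ι) (ℓ : ℕ) [Fact ℓ.Prime], RepT s (T i) S (P i) ℓ (β i ℓ))
    (hconn : ∀ (ℓ : ℕ) [Fact ℓ.Prime], Conn (totS (α ℓ) (fun i => β i ℓ)))
    (ℓ₀ : ℕ) [hℓ₀ : Fact ℓ₀.Prime] (hgood : ∀ i, GoodPrime (n i) (T i).Q ℓ₀)
    (hmt : MTC (hSum κ T) ((toQ (totS (α ℓ₀) (fun i => β i ℓ₀))).comp s)) :
    ∃ Λ : Set ℕ, Y142.ZI.DensityZero {ℓ | ℓ.Prime ∧ ℓ ∉ Λ} ∧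
      AdelicLe (2 ^ Fintype.card ι) (hSum κ T) (fun ℓ _ => totS (α ℓ) (fun i => β i ℓ)) Λ := by
  classical
  have hpos : ∀ i, 0 < n i := fun i => by have := (hgood i).five; omega
  have hQ : ∀ i, ((T i).Q).det ≠ 0 := fun i => Pool.Agent.W74.PG.det_ne (T i)
  choose D Z hD hZ hsys hb hgen using fun i => int_form hs (fun ℓ _ => β i ℓ) (fun ℓ _ => hβ i ℓ)
  choose b hb using hb
  -- the joint Lie algebra
  have hfull : ∀ X : ∀ i, Matrix (Fin (n i)) (Fin (n i)) ℚ_[ℓ₀],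
      (∀ i, SpLie ((T i).Q.map (algebraMap ℚ ℚ_[ℓ₀])) (X i)) →
      PO.JTan ℓ₀ (fun i => (qrep (β i ℓ₀)).comp s) X := by
    intro X hX
    have hmt' : MTC (hSum κ T)
        (MG.tot' ((toQ (α ℓ₀)).comp s) (fun i => (qrep (β i ℓ₀)).comp s)) := by
      have h1 : (toQ (totS (α ℓ₀) (fun i => β i ℓ₀))).comp s =
          MG.tot' ((toQ (α ℓ₀)).comp s) (fun i => (qrep (β i ℓ₀)).comp s) := by
        rw [toQ_totS]
        rfl
      rwa [h1] at hmt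
    have hc : ∀ i, Continuous ((qrep (β i ℓ₀)).comp s) := fun i => by
      have h2 : Continuous fun g => qm (β i ℓ₀ (s g)) :=
        continuous_qm.comp ((hβ i ℓ₀).cont.comp hs)
      exact h2
    have hsim : ∀ (i : ι) (g : GK K), ∃ c, Pool.Agent.Y142.ZS.Sim (PO.JL (fun i => (T i).Q) ℓ₀ i)
        (((qrep (β i ℓ₀)).comp s) g) c := by
      intro i g
      refine ⟨1, MG.sim_one.2 ?_⟩
      exact (hβ i ℓ₀).form (s g)
    have hJ : ∀ i, PO.IsForm (PO.JL (fun i => (T i).Q) ℓ₀ i) := fun i =>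
      ⟨Or.inl ⟨qsymm (T i), (hgood i).five⟩, qdet (T i)⟩
    have he1 : ∀ i : ι, (fun _ : ι => 0) i = 0 ∨ (fun _ : ι => 0) i = 1 := fun _ => Or.inl rfl
    have he : ∀ i : ι, (fun _ : ι => 0) i = 0 ∨ ((T i).Q)ᵀ = -(T i).Q := fun _ => Or.inl rfl
    exact MG.full_of_mtc' (Q := fun i => (T i).Q) (e := fun _ => 0) (h := hSum κ T)
      (α := (toQ (α ℓ₀)).comp s) (ρ := fun i => (qrep (β i ℓ₀)).comp s) he1 he hJ hQ hpos
      hod_hSum hB hc hsim hmt' X hX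
  obtain ⟨Λ, hΛ, hn, hun, hbig, hpair⟩ := joint_big hS hs β hβ hD (fun i ℓ _ => hsys i ℓ)
    (fun i ℓ _ => hb i ℓ) (fun i ℓ _ => hgen i ℓ) ℓ₀ hgood hfull
  refine ⟨Λ, hΛ, ?_⟩
  have hBs : ∀ (i : ι) (ℓ : ℕ) [Fact ℓ.Prime], ((Z i).map (Int.cast : ℤ → ℤ_[ℓ]))ᵀ =
      (Z i).map (Int.cast : ℤ → ℤ_[ℓ]) := by
    intro i ℓ _
    rw [← Matrix.transpose_map, z_symm (hZ i)]
  have hiso : ∀ (i : ι) (ℓ : ℕ) [Fact ℓ.Prime] (g : Γ),
      (β i ℓ g)ᵀ * (Z i).map (Int.cast : ℤ → ℤ_[ℓ]) * β i ℓ g = (Z i).map (Int.cast : ℤ → ℤ_[ℓ]) :=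
    fun i ℓ _ g => (iso_iff (hD i) (hZ i) ℓ _).1 ((hβ i ℓ).form g)
  have hα1 : ∀ (ℓ : ℕ) [Fact ℓ.Prime] (σ : Γ), α ℓ σ = 1 := fun ℓ _ σ => (hconn ℓ).leftS (hα ℓ) σ
  have hβ1 : ∀ (i : ι) (ℓ : ℕ) [Fact ℓ.Prime] (σ : Γ), (β i ℓ σ).det = 1 := fun i ℓ _ σ =>
    (hconn ℓ).rightS i (fun σ => det_pm (z_det (hD i) (hZ i) ℓ) (hiso i ℓ σ)) σ
  have htot : ∀ (ℓ : ℕ) [Fact ℓ.Prime] (σ : Γ), totS (α ℓ) (fun i => β i ℓ) σ =
      MG.emb κ fun i => β i ℓ σ := by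
    intro ℓ _ σ
    show fromBlocks (α ℓ σ) 0 0 _ = _
    rw [hα1]
    rfl
  refine ⟨?_, fun ℓ _ => {g | ∃ u : ∀ i, Matrix (Fin (n i)) (Fin (n i)) ℤ_[ℓ], g = MG.emb κ u ∧
    ∀ i, (u i)ᵀ * (Z i).map (Int.cast : ℤ → ℤ_[ℓ]) * u i = (Z i).map (Int.cast : ℤ → ℤ_[ℓ]) ∧
      (u i).det = 1 ∧ red ℓ (u i) ∈ Om ℓ (red ℓ ((Z i).map (Int.cast : ℤ → ℤ_[ℓ])))}, ?_, ?_⟩
  · intro ℓ _ hℓ σ
    rw [htot, mem_GZS hpos hB]
    exact ⟨_, rfl, fun i => ⟨(hβ i ℓ).form σ, hβ1 i ℓ σ⟩⟩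
  · intro ℓ _ hℓ
    refine ⟨?_, ?_, ?_, ?_, ?_⟩
    · rintro _ ⟨u, rfl, hu⟩
      exact (mem_GZS hpos hB).2 ⟨u, rfl, fun i => ⟨(iso_iff (hD i) (hZ i) ℓ _).2 (hu i).1,
        (hu i).2.1⟩⟩
    · refine ⟨fun i => 1, MG.emb_one.symm, fun i => ⟨by rw [transpose_one, one_mul, mul_one],
        det_one, ?_⟩⟩
      rw [red_one']
      exact Submonoid.one_mem _
    · rintro _ ⟨u, rfl, hu⟩ _ ⟨v, rfl, hv⟩
      refine ⟨fun i => u i * v i, MG.emb_mul _ _, fun i => ⟨?_, ?_, ?_⟩⟩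
      · rw [transpose_mul]
        calc (v i)ᵀ * (u i)ᵀ * (Z i).map (Int.cast : ℤ → ℤ_[ℓ]) * (u i * v i) =
            (v i)ᵀ * ((u i)ᵀ * (Z i).map (Int.cast : ℤ → ℤ_[ℓ]) * u i) * v i := by
              simp only [mul_assoc]
          _ = _ := by rw [(hu i).1, (hv i).1]
      · rw [det_mul, (hu i).2.1, (hv i).2.1, one_mul]
      · rw [Lft.red_mul]
        exact Submonoid.mul_mem _ (hu i).2.2 (hv i).2.2
    · rintro _ ⟨u, rfl, hu⟩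
      choose u' h1 h2 h3 using fun i => iso_inv (hun i ℓ hℓ) (hu i).1
      refine ⟨u', ?_, fun i => ⟨h3 i, ?_, om_inv (by rw [← Lft.red_mul, h1, red_one']) (hu i).2.2⟩⟩
      · refine Matrix.inv_eq_right_inv ?_
        rw [MG.emb_mul, ← MG.emb_one (κ := κ) (n := n) (R := ℤ_[ℓ])]
        congr 1
        funext i
        exact h2 i
      · have h4 := congrArg Matrix.det (h1 i)
        rwa [det_mul, (hu i).2.1, mul_one, det_one] at h4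
    · choose w hw hwd hall using fun i => index_two (show ℓ ≠ 2 by
        have := hn i ℓ hℓ
        have := (hgood i).five
        omega) (by have := (hgood i).five; omega) (hBs i ℓ) (hun i ℓ hℓ)
      let rep : Finset ι → Matrix (κ ⊕ Σ i, Fin (n i)) (κ ⊕ Σ i, Fin (n i)) ℤ_[ℓ] := fun A =>
        MG.emb κ fun i => if i ∈ A then w i else 1
      refine ⟨Set.range rep, Set.finite_range _, ?_, ?_, ?_⟩
      · have h1 : (Set.range rep).ncard ≤ Nat.card (Finset ι) := by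
          rw [← Set.image_univ, ← Set.ncard_univ]
          exact Set.ncard_image_le (Set.toFinite _)
        refine h1.trans (le_of_eq ?_)
        rw [Nat.card_eq_fintype_card, Fintype.card_finset]
      · rintro _ ⟨A, rfl⟩
        refine (mem_GZS hpos hB).2 ⟨_, rfl, fun i => ?_⟩
        by_cases hi : i ∈ A
        · rw [if_pos hi]
          exact ⟨(iso_iff (hD i) (hZ i) ℓ _).2 (hw i), hwd i⟩
        · rw [if_neg hi]
          exact ⟨(iso_iff (hD i) (hZ i) ℓ _).2 (by rw [transpose_one, one_mul, mul_one]), det_one⟩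
      · intro g hg
        obtain ⟨v, rfl, hv⟩ := (mem_GZS hpos hB).1 hg
        have h1 : ∀ i, ∃ (t : Bool) (ω : Matrix (Fin (n i)) (Fin (n i)) ℤ_[ℓ]),
            (ωᵀ * (Z i).map (Int.cast : ℤ → ℤ_[ℓ]) * ω = (Z i).map (Int.cast : ℤ → ℤ_[ℓ]) ∧
            ω.det = 1 ∧ red ℓ ω ∈ Om ℓ (red ℓ ((Z i).map (Int.cast : ℤ → ℤ_[ℓ])))) ∧
            v i = (if t = true then w i else 1) * ω := by
          intro i
          rcases hall i (v i) ((iso_iff (hD i) (hZ i) ℓ _).1 (hv i).1) (hv i).2 with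
            h2 | ⟨ω, h2, h3, h4, h5⟩
          · exact ⟨false, v i, ⟨(iso_iff (hD i) (hZ i) ℓ _).1 (hv i).1, (hv i).2, h2⟩, by simp⟩
          · exact ⟨true, ω, ⟨h2, h3, h4⟩, by simpa using h5⟩
        choose t ω hω hvω using h1
        refine ⟨rep (Finset.univ.filter fun i => t i = true), ⟨_, rfl⟩, MG.emb κ ω,
          ⟨ω, rfl, hω⟩, ?_⟩
        rw [MG.emb_mul]
        congr 1
        funext i
        rw [hvω i]
        congr 1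
        simp
  · intro h hh
    have h1 : ∀ (i : ι) (ℓ : ℕ) [Fact ℓ.Prime], ℓ ∈ Λ →
        (blk (h ℓ) i)ᵀ * (Z i).map (Int.cast : ℤ → ℤ_[ℓ]) * blk (h ℓ) i =
          (Z i).map (Int.cast : ℤ → ℤ_[ℓ]) ∧
        red ℓ (blk (h ℓ) i) ∈ Om ℓ (red ℓ ((Z i).map (Int.cast : ℤ → ℤ_[ℓ]))) := by
      intro i ℓ _ hℓ
      obtain ⟨u, h2, hu⟩ := hh ℓ hℓ
      rw [h2, MG.blk_emb]
      exact ⟨(hu i).1, (hu i).2.2⟩
    obtain ⟨σ, hσ⟩ := adelic2 (fun i => (hgood i).five) Λ hn β (fun i ℓ _ => (hβ i ℓ).cont)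
      (fun i ℓ _ => (Z i).map (Int.cast : ℤ → ℤ_[ℓ])) hBs hiso hun hbig hpair
      (fun i ℓ _ => blk (h ℓ) i) h1
    refine ⟨σ, fun ℓ _ hℓ => ?_⟩
    obtain ⟨u, h2, -⟩ := hh ℓ hℓ
    rw [htot, h2]
    congr 1
    funext i
    rw [hσ i ℓ hℓ, h2, MG.blk_emb]

end final

end Pool.Agent.T2H36.IX
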