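import Pool.Agent.T2H36.IX.F4
import Pool.Agent.T2H36.IX.E2
import Pool.Agent.T2H36.IX.Defs4

set_option autoImplicit false
set_option linter.unusedSectionVars false
set_option linter.style.haveILetI false

/-!
Several orthogonal summands, part 1: big images and irreducible Lie algebras at 100 percent of the
primes, for one summand.
-/

open Matrix Polynomial Filter Topology NumberField IsDedekindDomain
open Pool.Agent.Y142.ZO Pool.Agent.Y142.ZI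
open Pool.Agent.Y142.ZS (Generic NiceP restrict0 nice_of_p)
open Pool.Agent.Y142.ZD

namespace Pool.Agent.T2H36.IX

open Pool.Agent.R932 Pool.Agent.R932.OP

/-- big image, and irreducible Lie algebra modulo `ℓ` -/
def NB (ℓ : ℕ) [Fact ℓ.Prime] {n : ℕ} {Γ : Type} [Group Γ] [TopologicalSpace Γ]
    (β : Γ →* Matrix (Fin n) (Fin n) ℤ_[ℓ]) (B : Matrix (Fin n) (Fin n) ℤ_[ℓ]) : Prop :=
  NormBig ℓ β B ∧ SoIrr (rh β) (red ℓ B)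

/-- the Lie algebra is irreducible -/
theorem so_irr_of {ℓ : ℕ} [hp : Fact ℓ.Prime] {n : ℕ} {Γ : Type} [Group Γ]
    {β : Γ →* Matrix (Fin n) (Fin n) ℤ_[ℓ]} {B : Matrix (Fin n) (Fin n) ℤ_[ℓ]} (hn : 5 ≤ n)
    (h2 : 2 < ℓ) (hB : Bᵀ = B) (hdet : (red ℓ B).det ≠ 0) (hiso : ∀ g, (β g)ᵀ * B * β g = B)
    {d : ℕ} {g₀ : Γ} {mu : Fin n → AlgebraicClosure (ZMod ℓ)} {i₀ : Fin n} {a : ZMod ℓ}
    (hd : 2 ^ n ≤ d) (hSim : Sim (rh β) (AlgebraicClosure (ZMod ℓ)) d g₀ mu i₀ a)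
    (hFree : Free mu) : SoIrr (rh β) (red ℓ B) := by
  have h2ℓ : (2 : ZMod ℓ) ≠ 0 := by
    intro h3
    have h4 : ((2 : ℕ) : ZMod ℓ) = 0 := by exact_mod_cast h3
    rw [ZMod.natCast_eq_zero_iff] at h4
    exact absurd (Nat.le_of_dvd (by norm_num) h4) (by omega)
  have hisor : ∀ g, (red ℓ (β g))ᵀ * red ℓ B * red ℓ (β g) = red ℓ B := by
    intro g
    have h1 := congrArg (red ℓ) (hiso g)
    rw [Lft.red_mul, Lft.red_mul] at h1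
    exact h1
  have hBr : (red ℓ B)ᵀ = red ℓ B := congrArg (red ℓ) hB
  have hirr : ∀ (U : Subgroup Γ) (W : Submodule (AlgebraicClosure (ZMod ℓ))
      (Fin n → AlgebraicClosure (ZMod ℓ))), U.index ≠ 0 → U.index ≤ 2 ^ n →
      (∀ g ∈ U, ∀ w ∈ W, bc (AlgebraicClosure (ZMod ℓ)) (rh β g) *ᵥ w ∈ W) → W = ⊥ ∨ W = ⊤ :=
    fun U W hU0 hU hW => hSim.abs hU0 (hU.trans hd) hW
  intro V hV hconj hne X hX
  have h5 := lie_gen (S := (V : Set (Matrix (Fin n) (Fin n) (ZMod ℓ)))) h2ℓ hn hBr hdet hisor hirr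
    hSim.ch hFree hV hconj hne hX
  rwa [Submodule.span_eq] at h5

section

variable {K : Type} [Field K] [NumberField K] {n : ℕ} {Γ : Type} [Group Γ] [TopologicalSpace Γ]
  [IsTopologicalGroup Γ] [CompactSpace Γ] {s : GK K →* Γ}
  {S : Set (HeightOneSpectrum (𝓞 K))} {P : HeightOneSpectrum (𝓞 K) → ℚ[X]}

/-- **the bound for the index of the subgroups** -/
theorem exists_dnS (n : ℕ) (hn : 5 ≤ n) : ∃ d : ℕ, ∀ (K : Type) [Field K] [NumberField K]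
    (Γ : Type) [Group Γ] [TopologicalSpace Γ] [IsTopologicalGroup Γ] [CompactSpace Γ]
    (s : GK K →* Γ) (S : Set (HeightOneSpectrum (𝓞 K))) (P : HeightOneSpectrum (𝓞 K) → ℚ[X])
    (v : HeightOneSpectrum (𝓞 K)), v ∉ S → FreePoly (P v) →
    ∃ b : ℕ, ∀ (ℓ : ℕ) [Fact ℓ.Prime], b < ℓ →
    ∀ (β : Γ →* Matrix (Fin n) (Fin n) ℤ_[ℓ]) (B : Matrix (Fin n) (Fin n) ℤ_[ℓ]),
    IntegralSys K n ℓ s β B S P → Continuous β → IsUnit B.det → IrrMod ℓ d β → NB ℓ β B := by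
  obtain ⟨C, hC2, hC⟩ := norm_main n hn
  obtain ⟨J, hJ⟩ := exists_ord n (by omega)
  refine ⟨max (2 ^ n) J, fun K _ _ Γ _ _ _ _ s S P v hv hfree => ?_⟩
  obtain ⟨b, hb⟩ := free_red hfree (n := n) (by omega) (max (2 ^ n) J)
  refine ⟨max (max b C) (Ideal.absNorm v.asIdeal), fun ℓ hp hℓ β B hsys hβ hB hirr => ?_⟩
  simp only [max_lt_iff] at hℓ
  obtain ⟨-, hBs, -, hiso, hfrob⟩ := hsys
  obtain ⟨σ, hσ⟩ := Pool.Agent.W401.Frob.exists_frob v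
  have hch := hfrob v hv (not_mem_of_lt v hp.out hℓ.2) σ hσ
  rw [← Matrix.charpoly_map] at hch
  obtain ⟨mu, i₀, h1, h2, h3, h4⟩ := hb ℓ hℓ.1.1 (β (s σ⁻¹)) hch
  have hsim : Sim (rh β) (AlgebraicClosure (ZMod ℓ)) (max (2 ^ n) J) (s σ⁻¹) mu i₀ 1 := by
    refine ⟨hirr, ?_, h2.inj, ?_, h4⟩
    · rw [← h1]
      exact Matrix.charpoly_map _ _
    · rw [h3, map_one]
  have hdet : (red ℓ B).det ≠ 0 := by
    have h5 : (red ℓ B).det = (PadicInt.toZMod : ℤ_[ℓ] →+* ZMod ℓ) B.det := by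
      rw [RingHom.map_det, RingHom.mapMatrix_apply]
    rw [h5]
    exact (hB.map (PadicInt.toZMod : ℤ_[ℓ] →+* ZMod ℓ)).ne_zero
  exact ⟨⟨hC ℓ hℓ.1.2 Γ β hβ B hBs hdet hiso _ _ mu i₀ 1 (le_max_left _ _) hsim h2,
    hJ ℓ Γ β _ _ mu i₀ 1 (le_max_right _ _) hsim⟩,
    so_irr_of hn (by omega) hBs hdet hiso (le_max_left _ _) hsim h2⟩

end

section irr

variable {K : Type} [Field K] [NumberField K] {N : ℕ} {S : Set (HeightOneSpectrum (𝓞 K))}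
  {P : HeightOneSpectrum (𝓞 K) → ℚ[X]}

/-- **big images at 100 percent of the primes, from one open prime** -/
theorem big_oneS {Γ : Type} [Group Γ] [TopologicalSpace Γ] [IsTopologicalGroup Γ] [CompactSpace Γ]
    {s : GK K →* Γ} (hodd : Odd N) (hN : 5 ≤ N) (hS : S.Finite)
    (β : ∀ (ℓ : ℕ) [Fact ℓ.Prime], Γ →* Matrix (Fin N) (Fin N) ℤ_[ℓ])
    (hβ : ∀ (ℓ : ℕ) [Fact ℓ.Prime], Continuous (β ℓ))
    (B : ∀ (ℓ : ℕ) [Fact ℓ.Prime], Matrix (Fin N) (Fin N) ℤ_[ℓ])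
    (hsys : ∀ (ℓ : ℕ) [Fact ℓ.Prime], IntegralSys K N ℓ s (β ℓ) (B ℓ) S P)
    (hun : ∃ b : ℕ, ∀ (ℓ : ℕ) [Fact ℓ.Prime], b < ℓ → IsUnit (B ℓ).det)
    (ℓ₀ : ℕ) [hℓ₀ : Fact ℓ₀.Prime] (hdvd : ¬ ℓ₀ ∣ N - 1)
    (hfull : FullLie ℓ₀ (genRep ℓ₀ ((β ℓ₀).comp s)) (genM ℓ₀ (B ℓ₀))) :
    ∃ b : ℕ, Y142.ZI.DensityZero {ℓ | ∃ _ : Fact ℓ.Prime, b < ℓ ∧ ¬ NB ℓ (β ℓ) (B ℓ)} := by
  obtain ⟨d, hd⟩ := exists_dnS N hN
  obtain ⟨v, hv, hfree⟩ : ∃ v : HeightOneSpectrum (𝓞 K), v ∉ S ∧ FreePoly (P v) := by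
    obtain ⟨m, hm⟩ : ∃ m, N = 2 * m + 3 := by
      obtain ⟨k, hk⟩ := hodd
      exact ⟨k - 1, by omega⟩
    subst hm
    have hℓ2 : ℓ₀ ≠ 2 := by
      rintro rfl
      exact hdvd ⟨m + 1, by omega⟩
    exact free_of_full Y405.ZO.t Y537.ZI.t Y949.ZI.t R499.OP.form1 hS
      (fun ℓ _ => genRep ℓ ((β ℓ).comp s)) (fun ℓ _ => genM ℓ (B ℓ))
      (fun ℓ _ => orthogonal_of (hsys ℓ)) ℓ₀ hℓ2 hfull
  obtain ⟨b, hb⟩ := hd K Γ s S P v hv hfree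
  obtain ⟨b', hb'⟩ := hun
  refine ⟨max b b', Y142.ZI.DensityZero.mono
    (irr_one hodd hN hS β B hsys ⟨b', hb'⟩ ℓ₀ hdvd hfull d) ?_⟩
  rintro ℓ ⟨hp, hℓ, hno⟩
  rw [max_lt_iff] at hℓ
  exact ⟨hp, fun h => hno (hb ℓ hℓ.1 (β ℓ) (B ℓ) (hsys ℓ) (hβ ℓ) (hb' ℓ hℓ.2) h)⟩

end irr

section main

variable {K : Type} [Field K] [NumberField K] {N : ℕ} {S : Set (HeightOneSpectrum (𝓞 K))}
  {P : HeightOneSpectrum (𝓞 K) → ℚ[X]} {Γ : Type} [Group Γ] [TopologicalSpace Γ]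
  [IsTopologicalGroup Γ] [CompactSpace Γ] {s : GK K →* Γ}

/-- **big images at 100 percent of the primes, even rank, from one open prime** -/
theorem big_evenS (heven : Even N) (hN : 8 ≤ N) (hS : S.Finite)
    (β : ∀ (ℓ : ℕ) [Fact ℓ.Prime], Γ →* Matrix (Fin N) (Fin N) ℤ_[ℓ])
    (hβ : ∀ (ℓ : ℕ) [Fact ℓ.Prime], Continuous (β ℓ))
    (B : ∀ (ℓ : ℕ) [Fact ℓ.Prime], Matrix (Fin N) (Fin N) ℤ_[ℓ])
    (hsys : ∀ (ℓ : ℕ) [Fact ℓ.Prime], IntegralSys K N ℓ s (β ℓ) (B ℓ) S P)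
    (hun : ∃ b : ℕ, ∀ (ℓ : ℕ) [Fact ℓ.Prime], b < ℓ → IsUnit (B ℓ).det)
    (ℓ₀ : ℕ) [hℓ₀ : Fact ℓ₀.Prime] (hdvd : ¬ ℓ₀ ∣ (N - 2) * (N - 4))
    (hfull : FullLie ℓ₀ (genRep ℓ₀ ((β ℓ₀).comp s)) (genM ℓ₀ (B ℓ₀)))
    (hev : Even (Padic.valuation (genM ℓ₀ (B ℓ₀)).det)) :
    ∃ b : ℕ, Y142.ZI.DensityZero {ℓ | ∃ _ : Fact ℓ.Prime, b < ℓ ∧ ¬ NB ℓ (β ℓ) (B ℓ)} := by
  classical
  obtain ⟨n, hn⟩ : ∃ n, N = 2 * n := by
    obtain ⟨k, hk⟩ := heven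
    exact ⟨k, by omega⟩
  have hn4 : 4 ≤ n := by omega
  have hL : ¬ ℓ₀ ∣ 4 * ((n - 1) * (n - 2)) := by
    have h1 : (N - 2) * (N - 4) = 4 * ((n - 1) * (n - 2)) := by
      have h2 : N - 2 = 2 * (n - 1) := by omega
      have h3 : N - 4 = 2 * (n - 2) := by omega
      rw [h2, h3]
      ring
    rwa [h1] at hdvd
  have hTAN : Y142.ZO.S_TAN := Y708.ZO.t
  have hFROB : Y142.ZO.S_FROB := Y405.ZO.t
  have hINT : Y142.ZI.S_INT := Y484.ZI.t1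
  have hCHEB : Y142.ZI.S_CHEB := Y726.ZI.t1
  have hPOS : Y142.ZI.S_POS := Y726.ZI.t2 hCHEB
  have hDENS2 : Y142.ZI.S_DENS2 := Y681.ZI.t hCHEB
  have hMULTI : Y142.ZI.S_MULTI := Y537.ZI.t
  have hBADD : S_BADD := Y614.ZD.t
  have hKRQ : S_KRQ := Y331.ZD.t
  have hABS : S_ABS := Y758.ZD.t
  have hSUB : S_SUB := Y100.ZD.t
  set ρ : ∀ (ℓ : ℕ) [Fact ℓ.Prime], GK K →* Matrix (Fin N) (Fin N) ℚ_[ℓ] :=
    fun ℓ _ => genRep ℓ ((β ℓ).comp s) with hρ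
  set C : ∀ (ℓ : ℕ) [Fact ℓ.Prime], Matrix (Fin N) (Fin N) ℚ_[ℓ] := fun ℓ _ => genM ℓ (B ℓ) with hC
  have hsysO : ∀ (ℓ : ℕ) [Fact ℓ.Prime], Orthogonal K N ℓ (ρ ℓ) (C ℓ) S P :=
    fun ℓ _ => orthogonal_of (hsys ℓ)
  have hstart : StartData N S P := startE hn4 hn hMULTI hFROB chare hKRQ fda fdb typd3 (tame nr) hS
    ρ C hsysO ℓ₀ hL hfull hev
  have hinf := Y142.ZD.inf_open hTAN hABS roote hBADD hPOS hSUB ρ C hsysO hstart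
  have hevb : ∃ b : ℕ, ∀ ℓ : ℕ, b < ℓ → ∀ _ : Fact ℓ.Prime, Even (Padic.valuation (C ℓ).det) := by
    obtain ⟨s', v, w, -, -, hw, -⟩ := hstart
    exact even_det disce heven ρ C hsysO hw
  have key := keyE hn4 hn hMULTI hFROB chare hKRQ fda fdb (typd2 nr) typd3 nr (tame nr) gend cld
    hINT hS ρ C hsysO hinf hevb
  obtain ⟨C₁, hC₁, hmain⟩ := norm_main N (by omega)
  obtain ⟨J, hJ⟩ := exists_ord N (by omega)
  set d₀ : ℕ := max (2 ^ N) J with hd₀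
  obtain ⟨b₀, hb₀⟩ := hun
  -- stable subspaces modulo `ℓ`
  have hB1 : ∀ d : ℕ, 0 < d → d < N → Y142.ZI.DensityZero {ℓ | ∃ _ : Fact ℓ.Prime,
      ∃ (U : Subgroup Γ) (W : Submodule (ZMod ℓ) (Fin N → ZMod ℓ)), U.index ≠ 0 ∧ U.index ≤ d₀ ∧
        (∀ σ ∈ U, ∀ w ∈ W, redM ℓ (β ℓ σ) *ᵥ w ∈ W) ∧ Module.finrank (ZMod ℓ) W = d} := by
    intro d hd0 hdN
    refine hDENS2 _ N.factorial (fun ℓ hℓ => hℓ.1.out) fun M hM => ?_
    obtain ⟨v, hgen, hdeg, hc, -⟩ := key M hM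
    obtain ⟨b', hb'⟩ := place_mod (N := N) (s := s) hgen.1 d₀
    refine ⟨Lf (P v), Cl (P v) d, Lf_finite _, Lf_normal _, ?_, fun g hg h => cl_conj hg h,
      fun g hg u hu => cl_mul hg (fun x hx => hu x (mem_Lf hgen.1.2.1.ne_zero hx)),
      fun g => hc d g hd0 hdN, b', ?_⟩
    · have := Lf_finrank hgen.1.2.2.1
      rwa [hdeg] at this
    · rintro ℓ ⟨hp, U, W, hU0, hUd, hW, hWd⟩ hℓ σ hσ hσC
      obtain ⟨τ, h1, -, h3⟩ := hb' ℓ hℓ hp (β ℓ) (B ℓ) (hsys ℓ)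
      obtain ⟨R, hRm, hRd, hR⟩ := factor_of_stableM _ W (h1 U W hU0 hUd hW)
      obtain ⟨T, hT, hTn, hTs⟩ := h3 σ hσ R hRm hR
      exact hσC T hT hTs (by rw [hTn, hRd, hWd])
  have hB3 : ∀ D : ℕ, D ≤ N → Y142.ZI.DensityZero {ℓ | ∃ _ : Fact ℓ.Prime, ∃ d, 0 < d ∧ d < D ∧
      ∃ (U : Subgroup Γ) (W : Submodule (ZMod ℓ) (Fin N → ZMod ℓ)), U.index ≠ 0 ∧ U.index ≤ d₀ ∧
        (∀ σ ∈ U, ∀ w ∈ W, redM ℓ (β ℓ σ) *ᵥ w ∈ W) ∧ Module.finrank (ZMod ℓ) W = d} := by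
    intro D
    induction D with
    | zero =>
      intro _
      refine (densityZero_finite (Set.finite_empty)).mono ?_
      rintro ℓ ⟨_, d, _, hd, _⟩
      exact absurd hd (Nat.not_lt_zero _)
    | succ D ih =>
      intro hD
      rcases Nat.eq_zero_or_pos D with h0 | h0
      · refine (ih (by omega)).mono ?_
        rintro ℓ ⟨_, d, hd0, hd, _⟩
        omega
      · refine ((ih (by omega)).union (hB1 D h0 (by omega))).mono ?_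
        rintro ℓ ⟨hp, d, hd0, hd, hsub⟩
        rcases (Nat.lt_succ_iff_lt_or_eq.1 hd) with h | h
        · exact Or.inl ⟨hp, d, hd0, h, hsub⟩
        · exact Or.inr ⟨hp, h ▸ hsub⟩
  -- the primes at which the reduction is irreducible
  have hB2 : Y142.ZI.DensityZero {ℓ | ∃ _ : Fact ℓ.Prime, max b₀ C₁ < ℓ ∧ IrrMod ℓ d₀ (β ℓ) ∧
      ¬ NB ℓ (β ℓ) (B ℓ)} := by
    refine hDENS2 _ N.factorial (fun ℓ hℓ => hℓ.1.out) fun M hM => ?_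
    obtain ⟨v, hgen, hdeg, -, hc⟩ := key M hM
    have hfree := freeP_of_gen hgen (eval_zero_ne' hgen.1.1 ρ C hsysO)
    obtain ⟨b', hb'⟩ := freeP_red hfree N d₀
    obtain ⟨b'', hb''⟩ := root_mod hgen.1.2.1 hgen.1.2.2.1 N
    refine ⟨Lf (P v), Fx (P v), Lf_finite _, Lf_normal _, ?_, fun g hg h => fx_conj hg h,
      fun g hg u hu => fx_mul hg (fun x hx => hu x (mem_Lf hgen.1.2.1.ne_zero hx)), hc,
      max (max b' b'') (Ideal.absNorm v.asIdeal), ?_⟩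
    · have := Lf_finrank hgen.1.2.2.1
      rwa [hdeg] at this
    · rintro ℓ ⟨hp, hℓ0, hirr, hno⟩ hℓ σ hσ hσC
      simp only [max_lt_iff] at hℓ hℓ0
      apply hno
      obtain ⟨-, hBs, -, hiso, hfrob⟩ := hsys ℓ
      obtain ⟨τ, hτ⟩ := Pool.Agent.W401.Frob.exists_frob v
      have hch := hfrob v hgen.1.1 (not_mem_of_lt v hp.out hℓ.2) τ hτ
      rw [← Matrix.charpoly_map] at hch
      obtain ⟨mu, h1, h2, h3⟩ := hb' ℓ hℓ.1.1 (β ℓ (s τ⁻¹)) hch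
      obtain ⟨a, ha⟩ := hb'' ℓ hℓ.1.2 σ hσ hσC (β ℓ (s τ⁻¹)) hch
      obtain ⟨i₀, hi₀⟩ : ∃ i₀, mu i₀ = algebraMap (ZMod ℓ) (AlgebraicClosure (ZMod ℓ)) a := by
        have h4 : ((red ℓ (β ℓ (s τ⁻¹))).charpoly.map
            (algebraMap (ZMod ℓ) (AlgebraicClosure (ZMod ℓ)))).eval
            (algebraMap (ZMod ℓ) (AlgebraicClosure (ZMod ℓ)) a) = 0 := by
          rw [eval_map, eval₂_at_apply, ha, map_zero]
        rw [h1, eval_prod, Finset.prod_eq_zero_iff] at h4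
        obtain ⟨i, -, hi⟩ := h4
        rw [eval_sub, eval_X, eval_C, sub_eq_zero] at hi
        exact ⟨i, hi.symm⟩
      have hsim : Sim (rh (β ℓ)) (AlgebraicClosure (ZMod ℓ)) d₀ (s τ⁻¹) mu i₀ a := by
        refine ⟨hirr, ?_, h2.inj, hi₀, fun m hm hmd i hi => h3 m hm hmd i i₀ hi⟩
        rw [← h1]
        exact Matrix.charpoly_map _ _
      exact ⟨⟨hmain ℓ hℓ0.2 Γ (β ℓ) (hβ ℓ) (B ℓ) hBs (det_red_ne (hb₀ ℓ hℓ0.1)) hiso d₀ _ mu i₀ a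
        (le_max_left _ _) hsim h2, hJ ℓ Γ (β ℓ) d₀ _ mu i₀ a (le_max_right _ _) hsim⟩,
        so_irr_of (by omega) (by omega) hBs (det_red_ne (hb₀ ℓ hℓ0.1)) hiso (le_max_left _ _) hsim h2⟩
  refine ⟨max b₀ C₁, ((hB3 N le_rfl).union hB2).mono ?_⟩
  rintro ℓ ⟨hp, hℓ, hno⟩
  by_cases hs' : IrrMod ℓ d₀ (β ℓ)
  · exact Or.inr ⟨hp, hℓ, hs', hno⟩
  · left
    unfold IrrMod at hs'
    push Not at hs'
    obtain ⟨U, W, hU0, hUd, hW, hW0, hW1⟩ := hs'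
    have hle : Module.finrank (ZMod ℓ) W ≤ N := by
      have := Submodule.finrank_le W
      rwa [Module.finrank_fin_fun] at this
    refine ⟨hp, Module.finrank (ZMod ℓ) W, ?_, ?_, U, W, hU0, hUd, hW, rfl⟩
    · exact Nat.pos_of_ne_zero fun h => hW0 (Submodule.finrank_eq_zero.1 h)
    · exact lt_of_le_of_ne hle fun h => hW1 (Submodule.eq_top_of_finrank_eq (by
        rw [h, Module.finrank_fin_fun]))

end main

end Pool.Agent.T2H36.IX
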