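import Pool.Agent.T2H36.DD.D1
import Pool.Agent.T2H36.IX.TU
import Pool.Agent.T2H36.IX.EV
import Pool.Agent.T2H36.IX.SEP
import Pool.Agent.T2H36.IX.AD2
import Pool.Agent.T2H36.IX.PAIR
import Pool.Agent.R932.PO.Main

set_option autoImplicit false
set_option linter.unusedSectionVars false
set_option linter.style.haveILetI false

/-!
Several orthogonal summands, part 2: independence of two summands at all large primes.
-/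

open Matrix Polynomial Filter Topology NumberField IsDedekindDomain

namespace Pool.Agent.T2H36.IX

open Pool.Agent.R932 Pool.Agent.R932.OP

section limit

variable {Γ : Type} [Group Γ] [TopologicalSpace Γ] [CompactSpace Γ] {n₁ n₂ : ℕ}
  {ℓ : ℕ} [hℓ : Fact ℓ.Prime] {β₁ : Γ →* Matrix (Fin n₁) (Fin n₁) ℤ_[ℓ]}
  {β₂ : Γ →* Matrix (Fin n₂) (Fin n₂) ℤ_[ℓ]}

/-- limits of powers -/
theorem exists_lim (hβ₁ : Continuous β₁) (hβ₂ : Continuous β₂) {x : Γ}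
    (h2 : red ℓ (β₂ x) = 1) (ht : red ℓ (β₁ x) ^ (ℓ - 1) = 1) :
    ∃ z, β₂ z = 1 ∧ red ℓ (β₁ z) = red ℓ (β₁ x) := by
  have hpow : ∀ j, red ℓ (β₁ x) ^ ℓ ^ j = red ℓ (β₁ x) := by
    intro j
    induction j with
    | zero => rw [pow_zero, pow_one]
    | succ j ih =>
      rw [pow_succ, pow_mul, ih]
      calc red ℓ (β₁ x) ^ ℓ = red ℓ (β₁ x) ^ (ℓ - 1 + 1) := by
            rw [Nat.sub_add_cancel hℓ.out.one_le]
        _ = _ := by rw [pow_succ, ht, one_mul]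
  let U : Ultrafilter ℕ := Filter.hyperfilter ℕ
  have hU : (U : Filter ℕ) ≤ atTop := Nat.hyperfilter_le_atTop
  let y : ℕ → Γ := fun j => x ^ ℓ ^ j
  obtain ⟨z, -, hz⟩ := isCompact_univ.ultrafilter_le_nhds (U.map y) (by simp)
  have hz' : Tendsto y U (𝓝 z) := hz
  have hlim : Tendsto (fun j => β₂ (y j)) U (𝓝 1) := by
    have := (AD.tendsto_pow h2).mono_left hU
    refine this.congr fun j => ?_
    simp only [y, map_pow]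
  have hz1 : β₂ z = 1 := tendsto_nhds_unique ((hβ₂.tendsto z).comp hz') hlim
  have hev : ∀ᶠ j in (U : Filter ℕ), red ℓ (β₁ (y j)) = red ℓ (β₁ z) :=
    ((hβ₁.tendsto z).comp hz').eventually (AD.eventually_red (β₁ z))
  obtain ⟨j, hj⟩ := hev.exists
  refine ⟨z, hz1, ?_⟩
  rw [← hj]
  show rh β₁ (x ^ ℓ ^ j) = rh β₁ x
  rw [map_pow]
  exact hpow j

/-- an element of order `ℓ` in the kernel of the second representation -/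
theorem exists_comm (h5 : 5 ≤ ℓ) (hn : 5 ≤ n₁) (hβ₁ : Continuous β₁) (hβ₂ : Continuous β₂)
    {B : Matrix (Fin n₁) (Fin n₁) ℤ_[ℓ]} (hB : Bᵀ = B) (hdet : (red ℓ B).det ≠ 0)
    (hpair : ∀ u : Matrix (Fin n₁) (Fin n₁) (ZMod ℓ), uᵀ * red ℓ B * u = red ℓ B → u ^ ℓ = 1 →
      ∃ g, rh β₂ g = 1 ∧ rh β₁ g = u) :
    ∃ g, β₂ g = 1 ∧ red ℓ (β₁ g) ≠ 1 ∧ red ℓ (β₁ g) ^ ℓ = 1 := by
  have hBr : (red ℓ B)ᵀ = red ℓ B := congrArg (red ℓ) hB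
  obtain ⟨t, u, w, ht, htp, hu, huℓ, hw1, hwℓ, htu⟩ := tu_stmt ℓ h5 n₁ hn (red ℓ B) hBr hdet
  have hOm : ∀ x ∈ Om ℓ (red ℓ B), ∃ g, rh β₂ g = 1 ∧ rh β₁ g = x := by
    intro x hx
    induction hx using Submonoid.closure_induction with
    | mem x hx => exact hpair x hx.1 hx.2
    | one => exact ⟨1, map_one _, map_one _⟩
    | mul x y _ _ hx hy =>
      obtain ⟨g, hg, rfl⟩ := hx
      obtain ⟨g', hg', rfl⟩ := hy
      exact ⟨g * g', by rw [map_mul, hg, hg', one_mul], map_mul _ _ _⟩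
  obtain ⟨x, hx2, hx1⟩ := hOm t ht
  obtain ⟨y, -, hy1⟩ := hpair u hu huℓ
  obtain ⟨z, hz2, hz1⟩ := exists_lim hβ₁ hβ₂ hx2 (by
    show rh β₁ x ^ (ℓ - 1) = 1
    rw [hx1, htp])
  have hz1' : rh β₁ z = t := by
    rw [← hx1]
    exact hz1
  have hw : rh β₁ (z * y * z⁻¹ * y⁻¹) = w := by
    have h1 : rh β₁ (z * y) = w * rh β₁ (y * z) := by
      rw [map_mul, map_mul, hz1', hy1, htu, mul_assoc]
    have h2 : z * y * z⁻¹ * y⁻¹ = (z * y) * (y * z)⁻¹ := by group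
    rw [h2, map_mul, h1, mul_assoc, ← map_mul, mul_inv_cancel, map_one, mul_one]
  refine ⟨z * y * z⁻¹ * y⁻¹, ?_, ?_, ?_⟩
  · have h1 : β₂ z⁻¹ = 1 := by
      have h2 : β₂ z * β₂ z⁻¹ = 1 := by rw [← map_mul, mul_inv_cancel, map_one]
      rwa [hz2, one_mul] at h2
    rw [map_mul, map_mul, map_mul, hz2, h1, one_mul, mul_one, ← map_mul, mul_inv_cancel, map_one]
  · intro h
    exact hw1 (hw.symm.trans h)
  · have h1 : red ℓ (β₁ (z * y * z⁻¹ * y⁻¹)) = w := hw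
    rw [h1, hwℓ]

end limit

section roots

/-- two roots with a product outside of a group -/
theorem exists_idx {n : ℕ} (hn : 3 ≤ n) {G : Subgroup ℂˣ} {lam : Fin n → ℂˣ} {i₀ : Fin n}
    (hx : lam i₀ ^ 2 ∉ G) : ∃ i j : Fin n, i ≠ j ∧ lam i * lam j ∉ G := by
  by_contra hcon
  push Not at hcon
  obtain ⟨j, hj⟩ : ∃ j : Fin n, j ≠ i₀ := by
    by_contra h
    push Not at h
    have h1 := h ⟨0, by omega⟩
    have h2 := h ⟨1, by omega⟩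
    have h3 := h1.trans h2.symm
    simp at h3
  obtain ⟨k, hk, hjk⟩ : ∃ k : Fin n, k ≠ i₀ ∧ k ≠ j := by
    by_contra h
    push Not at h
    have h1 : (Finset.univ : Finset (Fin n)) ⊆ {i₀, j} := by
      intro x _
      by_cases hxi : x = i₀
      · simp [hxi]
      · simp [h x hxi]
    have h2 := Finset.card_le_card h1
    rw [Finset.card_univ, Fintype.card_fin] at h2
    have h3 : ({i₀, j} : Finset (Fin n)).card ≤ 2 := Finset.card_le_two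
    omega
  have h1 := hcon i₀ j (Ne.symm hj)
  have h2 := hcon i₀ k (Ne.symm hk)
  have h3 := hcon j k (Ne.symm hjk)
  apply hx
  have h4 := G.mul_mem (G.mul_mem h1 h2) (G.inv_mem h3)
  have h5 : lam i₀ * lam j * (lam i₀ * lam k) * (lam j * lam k)⁻¹ = lam i₀ ^ 2 := by
    rw [mul_inv_eq_iff_eq_mul, sq]
    ac_rfl
  rwa [h5] at h4

/-- the complex roots of a polynomial -/
theorem exists_lam {P : ℚ[X]} {n : ℕ} (hmon : P.Monic) (hdeg : P.natDegree = n) :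
    ∃ lam : Fin n → ℂ, P.map (algebraMap ℚ ℂ) = ∏ i, (X - C (lam i)) := by
  have hsplit : (P.map (algebraMap ℚ ℂ)).Splits := IsAlgClosed.splits _
  have hcard : (P.map (algebraMap ℚ ℂ)).roots.card = n := by
    rw [← hsplit.natDegree_eq_card_roots, natDegree_map, hdeg]
  have h2 := hsplit.eq_prod_roots_of_monic (hmon.map _)
  obtain ⟨l, hl⟩ : ∃ l : List ℂ, (l : Multiset ℂ) = (P.map (algebraMap ℚ ℂ)).roots :=
    ⟨_, Multiset.coe_toList _⟩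
  rw [← hl] at h2 hcard
  rw [Multiset.coe_card] at hcard
  subst hcard
  refine ⟨fun i => l[i.1], ?_⟩
  rw [h2, Multiset.map_coe, Multiset.prod_coe]
  exact (Fin.prod_univ_fun_getElem l (fun x => X - C x)).symm

theorem root_ne {P : ℚ[X]} (h0 : P.eval 0 ≠ 0) {x : ℂ} (hx : aeval x P = 0) : x ≠ 0 := by
  rintro rfl
  apply h0
  have h3 : aeval (algebraMap ℚ ℂ 0) P = algebraMap ℚ ℂ (P.eval 0) := by
    rw [aeval_algebraMap_apply, coe_aeval_eq_eval]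
  rw [map_zero, hx] at h3
  exact (map_eq_zero _).1 h3.symm

theorem lam_root {P : ℚ[X]} {n : ℕ} {lam : Fin n → ℂ}
    (h : P.map (algebraMap ℚ ℂ) = ∏ i, (X - C (lam i))) (i : Fin n) : aeval (lam i) P = 0 := by
  rw [aeval_def, ← eval_map, h, eval_prod]
  exact Finset.prod_eq_zero (Finset.mem_univ i) (by simp)

/-- **independence of two summands at all large primes** -/
theorem pair_large {n₁ n₂ : ℕ} (h₁ : 5 ≤ n₁) (h₂ : 5 ≤ n₂) {P₁ P₂ : ℚ[X]} (hm₁ : P₁.Monic)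
    (hm₂ : P₂.Monic) (hd₁ : P₁.natDegree = n₁) (hd₂ : P₂.natDegree = n₂) (h0₁ : P₁.eval 0 ≠ 0)
    (h0₂ : P₂.eval 0 ≠ 0) (hind : Pool.Agent.R932.PO.IndRoot P₁ P₂) :
    ∃ b : ℕ, ∀ (ℓ : ℕ) [Fact ℓ.Prime], b < ℓ → ∀ (Γ : Type) [Group Γ] [TopologicalSpace Γ]
      [CompactSpace Γ] (β₁ : Γ →* Matrix (Fin n₁) (Fin n₁) ℤ_[ℓ])
      (β₂ : Γ →* Matrix (Fin n₂) (Fin n₂) ℤ_[ℓ]) (B₁ : Matrix (Fin n₁) (Fin n₁) ℤ_[ℓ])
      (B₂ : Matrix (Fin n₂) (Fin n₂) ℤ_[ℓ]), Continuous β₁ → Continuous β₂ → B₁ᵀ = B₁ → B₂ᵀ = B₂ →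
      IsUnit B₁.det → IsUnit B₂.det → (∀ g, (β₁ g)ᵀ * B₁ * β₁ g = B₁) →
      (∀ g, (β₂ g)ᵀ * B₂ * β₂ g = B₂) → NB ℓ β₁ B₁ → NB ℓ β₂ B₂ → ∀ g₀ : Γ,
      ((β₁ g₀).map (algebraMap ℤ_[ℓ] ℚ_[ℓ])).charpoly = P₁.map (algebraMap ℚ ℚ_[ℓ]) →
      ((β₂ g₀).map (algebraMap ℤ_[ℓ] ℚ_[ℓ])).charpoly = P₂.map (algebraMap ℚ ℚ_[ℓ]) →
      ∃ g, β₂ g = 1 ∧ red ℓ (β₁ g) ≠ 1 ∧ red ℓ (β₁ g) ^ ℓ = 1 := by
  obtain ⟨lam₁, hlam₁⟩ := exists_lam hm₁ hd₁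
  obtain ⟨lam₂, hlam₂⟩ := exists_lam hm₂ hd₂
  obtain ⟨x, hx, hxm⟩ := hind
  set G : Subgroup ℂˣ :=
    Subgroup.closure {y : ℂˣ | aeval (y : ℂ) P₂ = 0 ∨ ∃ q : ℚ, (y : ℂ) = (q : ℂ)} with hG
  obtain ⟨i₀, hi₀⟩ : ∃ i₀, lam₁ i₀ = x := by
    rw [aeval_def, ← eval_map, hlam₁, eval_prod, Finset.prod_eq_zero_iff] at hx
    obtain ⟨i, -, hi⟩ := hx
    rw [eval_sub, eval_X, eval_C, sub_eq_zero] at hi
    exact ⟨i, hi.symm⟩
  have hu₁ : ∀ i, lam₁ i ≠ 0 := fun i => root_ne h0₁ (lam_root hlam₁ i)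
  have hu₂ : ∀ i, lam₂ i ≠ 0 := fun i => root_ne h0₂ (lam_root hlam₂ i)
  obtain ⟨i, j, hij, hijG⟩ := exists_idx (G := G) (lam := fun i => Units.mk0 (lam₁ i) (hu₁ i))
    (i₀ := i₀) (by omega) (by
      have h3 : Units.mk0 (lam₁ i₀) (hu₁ i₀) = x := Units.ext hi₀
      rw [h3]
      exact hxm 2 (by norm_num))
  have hsep : ∀ c d, lam₁ i * lam₁ j * lam₂ d ≠ lam₂ c := by
    intro c d h
    apply hijG
    have h3 : ∀ c, Units.mk0 (lam₂ c) (hu₂ c) ∈ G := fun c =>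
      Subgroup.subset_closure (Or.inl (lam_root hlam₂ c))
    have h4 : Units.mk0 (lam₁ i) (hu₁ i) * Units.mk0 (lam₁ j) (hu₁ j) =
        Units.mk0 (lam₂ c) (hu₂ c) * (Units.mk0 (lam₂ d) (hu₂ d))⁻¹ := by
      rw [eq_mul_inv_iff_mul_eq]
      exact Units.ext h
    rw [h4]
    exact G.mul_mem (h3 c) (G.inv_mem (h3 d))
  obtain ⟨b, hb⟩ := sep_stmt n₁ n₂ P₁ P₂ lam₁ lam₂ hlam₁ hlam₂ i j hsep
  obtain ⟨C₀, hC₀⟩ := pair_stmt ev_stmt n₁ n₂ h₁ h₂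
  refine ⟨max (max b C₀) 5, ?_⟩
  intro ℓ hℓ hbℓ Γ _ _ _ β₁ β₂ B₁ B₂ hβ₁ hβ₂ hB₁ hB₂ hu₁ hu₂ hiso₁ hiso₂ hNB₁ hNB₂ g₀ hc₁ hc₂
  simp only [max_lt_iff] at hbℓ
  obtain ⟨ν₁, ν₂, hν₁, hν₂, hν⟩ := hb ℓ hbℓ.1.1 (β₁ g₀) (β₂ g₀) hc₁ hc₂
  refine exists_comm (by omega) h₁ hβ₁ hβ₂ hB₁ (det_red_ne hu₁) ?_
  exact hC₀ ℓ hbℓ.1.2 Γ (rh β₁) (rh β₂) (red ℓ B₁) (red ℓ B₂) (congrArg (red ℓ) hB₁)
    (congrArg (red ℓ) hB₂) (det_red_ne hu₁) (det_red_ne hu₂) (fun g => red_iso (hiso₁ g))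
    (fun g => red_iso (hiso₂ g)) hNB₁.2 hNB₂.2 hNB₁.1.2 hNB₂.1.2 g₀ ν₁ ν₂ hν₁ hν₂ i j hij hν

end roots

end Pool.Agent.T2H36.IX
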