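import Pool.Agent.T2H36.DD.D2
import Pool.Agent.T2H36.IX.F8

set_option autoImplicit false
set_option linter.unusedSectionVars false
set_option linter.style.haveILetI false

/-!
Several orthogonal summands, part 3: from one prime to big independent images at 100 percent of the
primes.
-/

open Matrix Polynomial Filter Topology NumberField IsDedekindDomain
open Pool.Agent.Y142.ZO Pool.Agent.Y142.ZI
open Pool.Agent.Y142.ZS (SpLie)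
open Pool.Agent.Y95.MT
open Pool.Agent.W544.PG (HS BD bl)

namespace Pool.Agent.T2H36.IX

open Pool.Agent.R932 Pool.Agent.R932.OP

section single

variable {K : Type} [Field K] [NumberField K] {n : ℕ} {S : Set (HeightOneSpectrum (𝓞 K))}
  {P : HeightOneSpectrum (𝓞 K) → Polynomial ℚ} {Γ : Type} [Group Γ] [TopologicalSpace Γ]
  [IsTopologicalGroup Γ] [CompactSpace Γ] {s : GK K →* Γ} {T : HS n}

/-- **from one prime with full Lie algebra to big images at 100 percent of the primes** -/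
theorem main_bigS (hS : S.Finite) (hs : Continuous s)
    (β : ∀ (ℓ : ℕ) [Fact ℓ.Prime], Γ →* Matrix (Fin n) (Fin n) ℤ_[ℓ])
    (hβ : ∀ (ℓ : ℕ) [Fact ℓ.Prime], RepT s T S P ℓ (β ℓ))
    {D : ℕ} {Z : Matrix (Fin n) (Fin n) ℤ} (hD : D ≠ 0)
    (hsys : ∀ (ℓ : ℕ) [Fact ℓ.Prime], IntegralSys K n ℓ s (β ℓ) (Z.map (Int.cast : ℤ → ℤ_[ℓ])) S P)
    {b : ℕ} (hb : ∀ (ℓ : ℕ) [Fact ℓ.Prime], b < ℓ → IsUnit (Z.map (Int.cast : ℤ → ℤ_[ℓ])).det)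
    (hgen : ∀ (ℓ : ℕ) [Fact ℓ.Prime], genM ℓ (Z.map (Int.cast : ℤ → ℤ_[ℓ])) =
        (D : ℚ_[ℓ]) • T.Q.map (algebraMap ℚ ℚ_[ℓ]))
    (ℓ₀ : ℕ) [hℓ₀ : Fact ℓ₀.Prime] (hgood : GoodPrime n T.Q ℓ₀)
    (hfull : FullLie ℓ₀ ((qrep (β ℓ₀)).comp s) (T.Q.map (algebraMap ℚ ℚ_[ℓ₀]))) :
    ∃ b' : ℕ, Y142.ZI.DensityZero {ℓ | ∃ _ : Fact ℓ.Prime, b' < ℓ ∧
      ¬ NB ℓ (β ℓ) (Z.map (Int.cast : ℤ → ℤ_[ℓ]))} := by
  have hD' : (D : ℚ_[ℓ₀]) ≠ 0 := by exact_mod_cast hD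
  have hfull' : FullLie ℓ₀ (genRep ℓ₀ ((β ℓ₀).comp s))
      (genM ℓ₀ (Z.map (Int.cast : ℤ → ℤ_[ℓ₀]))) := by
    intro X hX
    refine hfull X ?_
    rw [hgen] at hX
    unfold Skew at hX ⊢
    rw [smul_mul_assoc, transpose_smul, ← smul_neg] at hX
    exact smul_right_injective _ hD' hX
  rcases hgood with ⟨hodd, h5, hdvd⟩ | ⟨heven, h8, hdvd, hval⟩
  · exact big_oneS hodd h5 hS β (fun ℓ _ => (hβ ℓ).cont)
      (fun ℓ _ => Z.map (Int.cast : ℤ → ℤ_[ℓ])) hsys ⟨b, hb⟩ ℓ₀ hdvd hfull'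
  · refine big_evenS heven h8 hS β (fun ℓ _ => (hβ ℓ).cont)
      (fun ℓ _ => Z.map (Int.cast : ℤ → ℤ_[ℓ])) hsys ⟨b, hb⟩ ℓ₀ hdvd hfull' ?_
    have hQ : T.Q.det ≠ 0 := Pool.Agent.W74.PG.det_ne T
    have h1 : (T.Q.map (algebraMap ℚ ℚ_[ℓ₀])).det = ((T.Q.det : ℚ) : ℚ_[ℓ₀]) := by
      have := (algebraMap ℚ ℚ_[ℓ₀]).map_det T.Q
      rw [RingHom.mapMatrix_apply] at this
      rw [← this]
      rfl
    rw [hgen, Matrix.det_smul, Fintype.card_fin, h1, Padic.valuation_mul (pow_ne_zero _ hD')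
      (by exact_mod_cast hQ), Padic.valuation_pow, Padic.valuation_ratCast]
    obtain ⟨k, hk⟩ := heven
    refine Even.add ?_ hval
    refine Even.mul_right ?_ _
    exact ⟨k, by rw [hk]; push_cast; ring⟩

theorem GoodPrime.kind {ℓ₀ : ℕ} [Fact ℓ₀.Prime] (h : GoodPrime n T.Q ℓ₀) :
    ∃ kd : PO.Kind, PO.Fits kd (T.Q.map (algebraMap ℚ ℚ_[ℓ₀])) ∧
      PO.Allows kd n ℓ₀ (T.Q.map (algebraMap ℚ ℚ_[ℓ₀])) := by
  rcases h with h | h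
  · exact ⟨.odd, ⟨qsymm T, h.1, h.2.1⟩, h.2.2⟩
  · refine ⟨.even, ⟨qsymm T, h.1, h.2.1⟩, ⟨h.2.2.1, ?_⟩⟩
    have h1 : (T.Q.map (algebraMap ℚ ℚ_[ℓ₀])).det = ((T.Q.det : ℚ) : ℚ_[ℓ₀]) := by
      have := (algebraMap ℚ ℚ_[ℓ₀]).map_det T.Q
      rw [RingHom.mapMatrix_apply] at this
      rw [← this]
      rfl
    rw [h1, Padic.valuation_ratCast]
    exact h.2.2.2

theorem repT_sys {ℓ : ℕ} [Fact ℓ.Prime] {β : Γ →* Matrix (Fin n) (Fin n) ℤ_[ℓ]}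
    (h : RepT s T S P ℓ β) {kd : PO.Kind} (hfit : PO.Fits kd (T.Q.map (algebraMap ℚ ℚ_[ℓ]))) :
    PO.Sys s kd n ℓ (qrep β) (T.Q.map (algebraMap ℚ ℚ_[ℓ])) S P (fun _ => 1) := by
  refine ⟨continuous_qm.comp h.cont, hfit, qdet T, fun γ => ⟨1, ?_, fun _ => rfl⟩, ?_⟩
  · rw [one_smul]
    exact h.form γ
  · intro v hv hvℓ σ hσ
    refine ⟨h.frob v hv hvℓ σ hσ, ?_⟩
    rw [Rat.cast_one, one_smul]
    exact h.form _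

/-- the polynomial of a Frobenius element -/
theorem repT_poly {ℓ : ℕ} [hp : Fact ℓ.Prime] {β : Γ →* Matrix (Fin n) (Fin n) ℤ_[ℓ]}
    (h : RepT s T S P ℓ β) {v : HeightOneSpectrum (𝓞 K)} (hv : v ∉ S) (hvℓ : (ℓ : 𝓞 K) ∉ v.asIdeal) :
    (P v).Monic ∧ (P v).natDegree = n ∧ (P v).eval 0 ≠ 0 := by
  obtain ⟨σ, hσ⟩ := Pool.Agent.W401.Frob.exists_frob v
  have h1 := h.frob v hv hvℓ σ hσ
  refine ⟨?_, ?_, ?_⟩
  · refine (Function.Injective.monic_map_iff (algebraMap ℚ ℚ_[ℓ]).injective).2 ?_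
    rw [← h1]
    exact charpoly_monic _
  · have h2 := congrArg natDegree h1
    rw [Matrix.charpoly_natDegree_eq_dim, Fintype.card_fin, natDegree_map] at h2
    exact h2.symm
  · intro h0
    have h2 := congrArg (eval (algebraMap ℚ ℚ_[ℓ] 0)) h1
    rw [eval_map, eval₂_at_apply, h0, map_zero, Matrix.eval_charpoly] at h2
    have h3 : (qrep β (s σ⁻¹)).det = 0 := by
      rw [map_zero, zero_sub, Matrix.det_neg] at h2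
      exact (mul_eq_zero.1 h2).resolve_left (pow_ne_zero _ (neg_ne_zero.2 one_ne_zero))
    have h4 : qrep β (s σ⁻¹) * qrep β (s σ⁻¹)⁻¹ = 1 := by
      rw [← map_mul, mul_inv_cancel, map_one]
    have h5 := congrArg Matrix.det h4
    rw [det_mul, h3, zero_mul, det_one] at h5
    exact zero_ne_one h5

end single

theorem densityZero_iUnion {ι : Type} [Fintype ι] {A : ι → Set ℕ}
    (h : ∀ i, Y142.ZI.DensityZero (A i)) : Y142.ZI.DensityZero (⋃ i, A i) := by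
  classical
  have h1 : ∀ F : Finset ι, Y142.ZI.DensityZero (⋃ i ∈ F, A i) := by
    intro F
    induction F using Finset.induction_on with
    | empty =>
      refine (densityZero_finite (Set.finite_empty)).mono ?_
      intro x hx
      simp at hx
    | insert j F hj ih =>
      refine ((h j).union ih).mono ?_
      intro x hx
      simp only [Set.mem_iUnion, Finset.mem_insert] at hx
      obtain ⟨i, hi, hx⟩ := hx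
      rcases hi with rfl | hi
      · exact Or.inl hx
      · right
        simp only [Set.mem_iUnion]
        exact ⟨i, hi, hx⟩
  refine (h1 Finset.univ).mono ?_
  intro x hx
  simpa using hx

section joint

variable {K : Type} [Field K] [NumberField K] {ι : Type} [Fintype ι] [DecidableEq ι] {n : ι → ℕ}
  {S : Set (HeightOneSpectrum (𝓞 K))} {P : ι → HeightOneSpectrum (𝓞 K) → Polynomial ℚ} {Γ : Type}
  [Group Γ] [TopologicalSpace Γ] [IsTopologicalGroup Γ] [CompactSpace Γ] {s : GK K →* Γ}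
  {T : ∀ i, HS (n i)}

/-- **from one prime with full joint Lie algebra to big independent images at 100 percent of the
primes** -/
theorem joint_big (hS : S.Finite) (hs : Continuous s)
    (β : ∀ (i : ι) (ℓ : ℕ) [Fact ℓ.Prime], Γ →* Matrix (Fin (n i)) (Fin (n i)) ℤ_[ℓ])
    (hβ : ∀ (i : ι) (ℓ : ℕ) [Fact ℓ.Prime], RepT s (T i) S (P i) ℓ (β i ℓ))
    {D : ι → ℕ} {Z : ∀ i, Matrix (Fin (n i)) (Fin (n i)) ℤ} (hD : ∀ i, D i ≠ 0)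
    (hsys : ∀ (i : ι) (ℓ : ℕ) [Fact ℓ.Prime],
      IntegralSys K (n i) ℓ s (β i ℓ) ((Z i).map (Int.cast : ℤ → ℤ_[ℓ])) S (P i))
    {b : ι → ℕ} (hb : ∀ (i : ι) (ℓ : ℕ) [Fact ℓ.Prime], b i < ℓ →
      IsUnit ((Z i).map (Int.cast : ℤ → ℤ_[ℓ])).det)
    (hgen : ∀ (i : ι) (ℓ : ℕ) [Fact ℓ.Prime], genM ℓ ((Z i).map (Int.cast : ℤ → ℤ_[ℓ])) =
        (D i : ℚ_[ℓ]) • (T i).Q.map (algebraMap ℚ ℚ_[ℓ]))
    (ℓ₀ : ℕ) [hℓ₀ : Fact ℓ₀.Prime] (hgood : ∀ i, GoodPrime (n i) (T i).Q ℓ₀)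
    (hfull : ∀ X : ∀ i, Matrix (Fin (n i)) (Fin (n i)) ℚ_[ℓ₀],
      (∀ i, SpLie ((T i).Q.map (algebraMap ℚ ℚ_[ℓ₀])) (X i)) →
      PO.JTan ℓ₀ (fun i => (qrep (β i ℓ₀)).comp s) X) :
    ∃ Λ : Set ℕ, Y142.ZI.DensityZero {ℓ | ℓ.Prime ∧ ℓ ∉ Λ} ∧ (∀ i, ∀ ℓ ∈ Λ, n i < ℓ) ∧
      (∀ (i : ι) (ℓ : ℕ) [Fact ℓ.Prime], ℓ ∈ Λ → IsUnit ((Z i).map (Int.cast : ℤ → ℤ_[ℓ])).det) ∧
      (∀ (i : ι) (ℓ : ℕ) [Fact ℓ.Prime], ℓ ∈ Λ →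
        NormBig ℓ (β i ℓ) ((Z i).map (Int.cast : ℤ → ℤ_[ℓ]))) ∧
      ∀ (i j : ι) (ℓ : ℕ) [Fact ℓ.Prime], i ≠ j → ℓ ∈ Λ →
        ∃ g : Γ, β j ℓ g = 1 ∧ red ℓ (β i ℓ g) ≠ 1 ∧ red ℓ (β i ℓ g) ^ ℓ = 1 := by
  classical
  choose kd hfit hal using fun i => (hgood i).kind
  -- each summand
  have hone : ∀ i, FullLie ℓ₀ ((qrep (β i ℓ₀)).comp s) ((T i).Q.map (algebraMap ℚ ℚ_[ℓ₀])) := by
    intro i X hX
    exact PO.one_of_joint (ρ := fun i => (qrep (β i ℓ₀)).comp s) hfull i X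
      ((PO.skew_sp (qsymm (T i))).1 hX)
  choose b' hb' using fun i => main_bigS (T := T i) hS hs (fun ℓ _ => β i ℓ) (fun ℓ _ => hβ i ℓ)
    (hD i) (fun ℓ _ => hsys i ℓ) (fun ℓ _ => hb i ℓ) (fun ℓ _ => hgen i ℓ) ℓ₀ (hgood i) (hone i)
  -- a place for each summand
  have hplace : ∀ i, ∃ v, v ∉ S ∧ (ℓ₀ : 𝓞 K) ∉ v.asIdeal ∧
      PO.IndRoot (P i v) (∏ j ∈ Finset.univ.erase i, P j v) := by
    intro i
    obtain ⟨v, -, h1, h2, h3⟩ := PO.exists_place PO.tasks.lts PO.tasks.lto PO.tasks.lte hs hS ℓ₀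
      (fun i => qrep (β i ℓ₀)) (fun i => (T i).Q.map (algebraMap ℚ ℚ_[ℓ₀]))
      (fun i => repT_sys (hβ i ℓ₀) (hfit i)) hal hfull i Set.finite_empty
    exact ⟨v, h1, h2, h3⟩
  choose v hvS hvℓ hind using hplace
  -- the pairs
  have hpair : ∀ i j, i ≠ j → ∃ c : ℕ, ∀ (ℓ : ℕ) [Fact ℓ.Prime], c < ℓ →
      IsUnit ((Z i).map (Int.cast : ℤ → ℤ_[ℓ])).det → IsUnit ((Z j).map (Int.cast : ℤ → ℤ_[ℓ])).det →
      NB ℓ (β i ℓ) ((Z i).map (Int.cast : ℤ → ℤ_[ℓ])) →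
      NB ℓ (β j ℓ) ((Z j).map (Int.cast : ℤ → ℤ_[ℓ])) →
      ∃ g : Γ, β j ℓ g = 1 ∧ red ℓ (β i ℓ g) ≠ 1 ∧ red ℓ (β i ℓ g) ^ ℓ = 1 := by
    intro i j hij
    obtain ⟨hm₁, hd₁, h0₁⟩ := repT_poly (hβ i ℓ₀) (hvS i) (hvℓ i)
    obtain ⟨hm₂, hd₂, h0₂⟩ := repT_poly (hβ j ℓ₀) (hvS i) (hvℓ i)
    have hind' : PO.IndRoot (P i (v i)) (P j (v i)) := by
      obtain ⟨x, hx, hxm⟩ := hind i
      refine ⟨x, hx, fun m hm h => hxm m hm ?_⟩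
      refine Subgroup.closure_mono ?_ h
      rintro y (hy | hy)
      · left
        rw [map_prod]
        exact Finset.prod_eq_zero (Finset.mem_erase.2 ⟨Ne.symm hij, Finset.mem_univ j⟩) hy
      · exact Or.inr hy
    obtain ⟨c, hc⟩ := pair_large (hgood i).five (hgood j).five hm₁ hm₂ hd₁ hd₂ h0₁ h0₂ hind'
    refine ⟨max c (Ideal.absNorm (v i).asIdeal), ?_⟩
    intro ℓ hp hℓ hui huj hNi hNj
    rw [max_lt_iff] at hℓ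
    obtain ⟨σ, hσ⟩ := Pool.Agent.W401.Frob.exists_frob (v i)
    have hvl := not_mem_of_lt (v i) hp.out hℓ.2
    exact hc ℓ hℓ.1 Γ (β i ℓ) (β j ℓ) _ _ (hβ i ℓ).cont (hβ j ℓ).cont (hsys i ℓ).2.1
      (hsys j ℓ).2.1 hui huj (hsys i ℓ).2.2.2.1 (hsys j ℓ).2.2.2.1 hNi hNj (s σ⁻¹)
      ((hβ i ℓ).frob (v i) (hvS i) hvl σ hσ) ((hβ j ℓ).frob (v i) (hvS i) hvl σ hσ)
  have hpair' : ∀ i j, ∃ c : ℕ, i ≠ j → ∀ (ℓ : ℕ) [Fact ℓ.Prime], c < ℓ →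
      IsUnit ((Z i).map (Int.cast : ℤ → ℤ_[ℓ])).det → IsUnit ((Z j).map (Int.cast : ℤ → ℤ_[ℓ])).det →
      NB ℓ (β i ℓ) ((Z i).map (Int.cast : ℤ → ℤ_[ℓ])) →
      NB ℓ (β j ℓ) ((Z j).map (Int.cast : ℤ → ℤ_[ℓ])) →
      ∃ g : Γ, β j ℓ g = 1 ∧ red ℓ (β i ℓ g) ≠ 1 ∧ red ℓ (β i ℓ g) ^ ℓ = 1 := by
    intro i j
    by_cases hij : i = j
    · exact ⟨0, fun h => absurd hij h⟩
    · obtain ⟨c, hc⟩ := hpair i j hij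
      exact ⟨c, fun _ => hc⟩
  choose c hc using hpair'
  let M : ℕ := ∑ i, (b i + b' i + n i + ∑ j, c i j)
  have hMi : ∀ i, b i + b' i + n i + ∑ j, c i j ≤ M := fun i =>
    Finset.single_le_sum (f := fun i => b i + b' i + n i + ∑ j, c i j) (fun _ _ => Nat.zero_le _)
      (Finset.mem_univ i)
  have hcij : ∀ i j, c i j ≤ ∑ j, c i j := fun i j =>
    Finset.single_le_sum (f := fun j => c i j) (fun _ _ => Nat.zero_le _) (Finset.mem_univ j)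
  refine ⟨{ℓ | M < ℓ ∧ ∀ _ : Fact ℓ.Prime, ∀ i, NB ℓ (β i ℓ) ((Z i).map (Int.cast : ℤ → ℤ_[ℓ]))},
    ?_, ?_, ?_, ?_, ?_⟩
  · refine Y142.ZI.DensityZero.mono ((densityZero_finite
      (Set.finite_Iic M)).union (densityZero_iUnion hb')) ?_
    rintro ℓ ⟨hp, hℓ⟩
    by_cases h1 : M < ℓ
    · right
      have h2 : ¬ ∀ _ : Fact ℓ.Prime, ∀ i, NB ℓ (β i ℓ) ((Z i).map (Int.cast : ℤ → ℤ_[ℓ])) :=
        fun h => hℓ ⟨h1, h⟩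
      push Not at h2
      obtain ⟨hp', i, hi⟩ := h2
      rw [Set.mem_iUnion]
      exact ⟨i, hp', by have := hMi i; omega, hi⟩
    · left
      exact not_lt.1 h1
  · rintro i ℓ ⟨h1, -⟩
    have := hMi i
    omega
  · rintro i ℓ _ ⟨h1, -⟩
    have := hMi i
    exact hb i ℓ (by omega)
  · rintro i ℓ _ ⟨-, h1⟩
    exact (h1 _ i).1
  · rintro i j ℓ _ hij ⟨h1, h2⟩
    have h3 := hMi i
    have h4 := hMi j
    have h5 := hcij i j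
    exact hc i j hij ℓ (by omega) (hb i ℓ (by omega)) (hb j ℓ (by omega)) (h2 _ i) (h2 _ j)

/-- **independence** -/
theorem adelic2 (h5 : ∀ i, 5 ≤ n i) (L : Set ℕ) (hL : ∀ i, ∀ ℓ ∈ L, n i < ℓ)
    (β : ∀ (i : ι) (ℓ : ℕ) [Fact ℓ.Prime], Γ →* Matrix (Fin (n i)) (Fin (n i)) ℤ_[ℓ])
    (hβ : ∀ (i : ι) (ℓ : ℕ) [Fact ℓ.Prime], Continuous (β i ℓ))
    (B : ∀ (i : ι) (ℓ : ℕ) [Fact ℓ.Prime], Matrix (Fin (n i)) (Fin (n i)) ℤ_[ℓ])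
    (hBs : ∀ (i : ι) (ℓ : ℕ) [Fact ℓ.Prime], (B i ℓ)ᵀ = B i ℓ)
    (hiso : ∀ (i : ι) (ℓ : ℕ) [Fact ℓ.Prime] (g : Γ), (β i ℓ g)ᵀ * B i ℓ * β i ℓ g = B i ℓ)
    (hun : ∀ (i : ι) (ℓ : ℕ) [Fact ℓ.Prime], ℓ ∈ L → IsUnit (B i ℓ).det)
    (hbig : ∀ (i : ι) (ℓ : ℕ) [Fact ℓ.Prime], ℓ ∈ L → NormBig ℓ (β i ℓ) (B i ℓ))
    (hpair : ∀ (i j : ι) (ℓ : ℕ) [Fact ℓ.Prime], i ≠ j → ℓ ∈ L →
      ∃ g : Γ, β j ℓ g = 1 ∧ red ℓ (β i ℓ g) ≠ 1 ∧ red ℓ (β i ℓ g) ^ ℓ = 1)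
    (h : ∀ (i : ι) (ℓ : ℕ) [Fact ℓ.Prime], Matrix (Fin (n i)) (Fin (n i)) ℤ_[ℓ])
    (hh : ∀ (i : ι) (ℓ : ℕ) [Fact ℓ.Prime], ℓ ∈ L → (h i ℓ)ᵀ * B i ℓ * h i ℓ = B i ℓ ∧
      red ℓ (h i ℓ) ∈ Om ℓ (red ℓ (B i ℓ))) :
    ∃ σ : Γ, ∀ (i : ι) (ℓ : ℕ) [Fact ℓ.Prime], ℓ ∈ L → β i ℓ σ = h i ℓ := by
  refine ad2_stmt ab_stmt Γ ι n L hL β hβ
    (fun i ℓ _ => {h | hᵀ * B i ℓ * h = B i ℓ ∧ red ℓ h ∈ Om ℓ (red ℓ (B i ℓ))}) ?_ ?_ ?_ hpair h hh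
  · intro i ℓ _ hℓ g hg
    obtain ⟨σ, -, hσ⟩ := ((hbig i ℓ hℓ).1 ⊤ inferInstance isClosed_univ
      (by obtain ⟨g, hg⟩ := (hbig i ℓ hℓ).2; exact ⟨g, Subgroup.mem_top g, hg⟩)).2 g hg.1 hg.2
    exact ⟨σ, hσ⟩
  · intro i ℓ _ hℓ K hK hKc hKe g hg
    exact ((hbig i ℓ hℓ).1 K hK hKc hKe).2 g hg.1 hg.2
  · intro i ℓ _ hℓ
    have hBr : (red ℓ (B i ℓ))ᵀ = red ℓ (B i ℓ) := congrArg (red ℓ) (hBs i ℓ)
    obtain ⟨R, k, hRk, hR, hne⟩ := na_stmt ℓ (n i) (h5 i) (hL i ℓ hℓ) (red ℓ (B i ℓ)) hBr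
      (det_red_ne (hun i ℓ hℓ))
    refine ⟨R, k, hRk, fun g hg => ?_, hne⟩
    obtain ⟨σ, -, hσ⟩ := ((hbig i ℓ hℓ).1 ⊤ inferInstance isClosed_univ
      (by obtain ⟨g, hg⟩ := (hbig i ℓ hℓ).2; exact ⟨g, Subgroup.mem_top g, hg⟩)).1 _ (hR g hg).2
    refine ⟨β i ℓ σ, ⟨hiso i ℓ σ, ?_⟩, hσ⟩
    rw [hσ]
    exact (hR g hg).2

end joint

end Pool.Agent.T2H36.IX
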