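import Pool.Agent.T2H36.DD.D3
import Pool.Agent.T2H36.MG.H3

set_option autoImplicit false
set_option linter.unusedSectionVars false
set_option linter.style.haveILetI false

/-!
Several orthogonal summands, part 4: the Mumford-Tate group over `ℤ_ℓ`; the final theorem.
-/

open MvPolynomial Matrix Filter Topology NumberField IsDedekindDomain
open Pool.Agent.Y142.ZO Pool.Agent.Y142.ZI
open Pool.Agent.Y142.ZS (Sim SpLie)
open Pool.Agent.Y95.MT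
open Pool.Agent.W544.PG (HS BD bl)
open Pool.Agent.T2H36.MG (emb blk InG)

namespace Pool.Agent.T2H36.IX

open Pool.Agent.R932 Pool.Agent.R932.OP

section defs

variable {J : Type} [Fintype J] [DecidableEq J] {Γ : Type} [Group Γ]

/-- `Ω` is a subgroup of index at most `m` of `G` -/
def IndexLe {R : Type} [CommRing R] (m : ℕ) (Ω G : Set (Matrix J J R)) : Prop :=
  Ω ⊆ G ∧ 1 ∈ Ω ∧ (∀ a ∈ Ω, ∀ b ∈ Ω, a * b ∈ Ω) ∧ (∀ a ∈ Ω, a⁻¹ ∈ Ω) ∧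
    ∃ C : Set (Matrix J J R), C.Finite ∧ C.ncard ≤ m ∧ C ⊆ G ∧ ∀ g ∈ G, ∃ c ∈ C, ∃ ω ∈ Ω, g = c * ω

/-- the adelic statement, with index at most `m` -/
def AdelicLe (m : ℕ) (h : ℂ → Matrix J J ℂ) (ρ : ∀ (ℓ : ℕ) [Fact ℓ.Prime], Γ →* Matrix J J ℤ_[ℓ])
    (Λ : Set ℕ) : Prop :=
  (∀ (ℓ : ℕ) [Fact ℓ.Prime], ℓ ∈ Λ → ∀ σ, ρ ℓ σ ∈ GZ ℓ h) ∧
  ∃ Ω : ∀ (ℓ : ℕ) [Fact ℓ.Prime], Set (Matrix J J ℤ_[ℓ]),
    (∀ (ℓ : ℕ) [Fact ℓ.Prime], ℓ ∈ Λ → IndexLe m (Ω ℓ) (GZ ℓ h)) ∧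
    ∀ g : ∀ (ℓ : ℕ) [Fact ℓ.Prime], Matrix J J ℤ_[ℓ],
      (∀ (ℓ : ℕ) [Fact ℓ.Prime], ℓ ∈ Λ → g ℓ ∈ Ω ℓ) →
      ∃ σ : Γ, ∀ (ℓ : ℕ) [Fact ℓ.Prime], ℓ ∈ Λ → ρ ℓ σ = g ℓ

end defs

variable {κ : Type} [Fintype κ] [DecidableEq κ] {ι : Type} [Fintype ι] [DecidableEq ι] {n : ι → ℕ}

section rep

variable {ℓ : ℕ} [hp : Fact ℓ.Prime] {Γ : Type} [Group Γ]

/-- the direct sum of integral representations -/
noncomputable def totS (α : Γ →* Matrix κ κ ℤ_[ℓ])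
    (β : ∀ i, Γ →* Matrix (Fin (n i)) (Fin (n i)) ℤ_[ℓ]) :
    Γ →* Matrix (κ ⊕ Σ i, Fin (n i)) (κ ⊕ Σ i, Fin (n i)) ℤ_[ℓ] where
  toFun σ := fromBlocks (α σ) 0 0 (blockDiagonal' fun i => β i σ)
  map_one' := by
    rw [map_one]
    have h1 : (fun i => β i 1) = fun i => (1 : Matrix (Fin (n i)) (Fin (n i)) ℤ_[ℓ]) := by
      funext i
      rw [map_one]
    rw [h1]
    exact MG.emb_one
  map_mul' a b := by
    rw [fromBlocks_multiply, ← blockDiagonal'_mul]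
    simp only [map_mul, Matrix.mul_zero, Matrix.zero_mul, add_zero, zero_add]

variable {α : Γ →* Matrix κ κ ℤ_[ℓ]} {β : ∀ i, Γ →* Matrix (Fin (n i)) (Fin (n i)) ℤ_[ℓ]}

theorem toQ_totS : toQ (totS α β) = MG.tot' (toQ α) (fun i => qrep (β i)) := by
  refine MonoidHom.ext fun σ => ?_
  show (fromBlocks (α σ) 0 0 (blockDiagonal' fun i => β i σ)).map (algebraMap ℤ_[ℓ] ℚ_[ℓ]) =
    fromBlocks ((α σ).map (algebraMap ℤ_[ℓ] ℚ_[ℓ])) 0 0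
      (blockDiagonal' fun i => (β i σ).map (algebraMap ℤ_[ℓ] ℚ_[ℓ]))
  rw [Matrix.fromBlocks_map, blockDiagonal'_map _ _ (map_zero _)]
  simp

theorem Conn.leftS (h : Conn (totS α β)) (hα : (Set.range α).Finite) (σ : Γ) : α σ = 1 := by
  ext a b
  have hfin : α.toHomUnits.ker.FiniteIndex := MG.fin_ker α hα
  have h1 := h (X (Sum.inl a, Sum.inl b) - C (((1 : Matrix κ κ ℤ_[ℓ]) a b : ℤ_[ℓ]) : ℚ_[ℓ]))
    ⟨α.toHomUnits.ker, hfin, fun s hs => by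
      rw [MonoidHom.mem_ker, Units.ext_iff, MonoidHom.coe_toHomUnits] at hs
      rw [map_sub, aeval_X, aeval_C]
      show ((α s a b : ℤ_[ℓ]) : ℚ_[ℓ]) - _ = 0
      rw [hs]
      simp⟩ σ
  rw [map_sub, aeval_X, aeval_C, sub_eq_zero] at h1
  exact Subtype.val_injective h1

theorem Conn.rightS (h : Conn (totS α β)) (i : ι) (hβ : ∀ σ, (β i σ).det = 1 ∨ (β i σ).det = -1)
    (σ : Γ) : (β i σ).det = 1 := by
  classical
  let δ : Γ →* ℤ_[ℓ] :=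
    (Matrix.detMonoidHom : Matrix (Fin (n i)) (Fin (n i)) ℤ_[ℓ] →* ℤ_[ℓ]).comp (β i)
  have hfin : δ.toHomUnits.ker.FiniteIndex := by
    refine MG.fin_ker δ ((Set.toFinite ({1, -1} : Set ℤ_[ℓ])).subset ?_)
    rintro _ ⟨s, rfl⟩
    exact hβ s
  let M : Matrix (Fin (n i)) (Fin (n i))
      (MvPolynomial ((κ ⊕ Σ i, Fin (n i)) × (κ ⊕ Σ i, Fin (n i))) ℚ_[ℓ]) :=
    Matrix.of fun a b => X (Sum.inr ⟨i, a⟩, Sum.inr ⟨i, b⟩)
  have hM : ∀ s, aeval (fun q : (κ ⊕ Σ i, Fin (n i)) × (κ ⊕ Σ i, Fin (n i)) =>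
      (totS α β s q.1 q.2 : ℚ_[ℓ])) M.det = (((β i s).det : ℤ_[ℓ]) : ℚ_[ℓ]) := by
    intro s
    have h2 := (((aeval (fun q : (κ ⊕ Σ i, Fin (n i)) × (κ ⊕ Σ i, Fin (n i)) =>
      (totS α β s q.1 q.2 : ℚ_[ℓ])) :
      MvPolynomial ((κ ⊕ Σ i, Fin (n i)) × (κ ⊕ Σ i, Fin (n i))) ℚ_[ℓ] →ₐ[ℚ_[ℓ]] ℚ_[ℓ]) :
        _ →+* ℚ_[ℓ])).map_det M
    have h3 := (algebraMap ℤ_[ℓ] ℚ_[ℓ]).map_det (β i s)
    refine h2.trans (Eq.trans ?_ h3.symm)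
    congr 1
    ext a b
    rw [RingHom.mapMatrix_apply, RingHom.mapMatrix_apply, Matrix.map_apply, Matrix.map_apply]
    show aeval _ (X (σ := (κ ⊕ Σ i, Fin (n i)) × (κ ⊕ Σ i, Fin (n i)))
      (Sum.inr ⟨i, a⟩, Sum.inr ⟨i, b⟩)) = _
    rw [aeval_X]
    show (((blockDiagonal' fun i => β i s) (⟨i, a⟩ : Σ i, Fin (n i)) (⟨i, b⟩ : Σ i, Fin (n i)) :
      ℤ_[ℓ]) : ℚ_[ℓ]) = _
    rw [blockDiagonal'_apply_eq]
    rfl
  have h1 := h (M.det - C 1) ⟨δ.toHomUnits.ker, hfin, fun s hs => by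
      rw [MonoidHom.mem_ker, Units.ext_iff, MonoidHom.coe_toHomUnits] at hs
      have hs' : (β i s).det = 1 := hs
      rw [map_sub, hM, hs', map_one, map_one]
      simp⟩ σ
  rw [map_sub, hM, map_one, map_one, sub_eq_zero] at h1
  exact Subtype.val_injective h1

end rep

section hodge

variable {T : ∀ i, HS (n i)}

variable (κ T) in
/-- the Hodge structure -/
noncomputable def hSum (z : ℂ) : Matrix (κ ⊕ Σ i, Fin (n i)) (κ ⊕ Σ i, Fin (n i)) ℂ :=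
  emb κ fun i => hT (T i) z

theorem hod_hSum : MG.Hod κ (fun i => (T i).Q) (fun _ => 0) (hSum κ T) := by
  refine ⟨fun z => z, ?_, fun z hz => ⟨hz, fun i => hT (T i) z, rfl, fun i => ?_⟩⟩
  · rw [Set.image_id']
    refine Set.Infinite.mono (s := Set.range fun k : ℕ => ((k + 1 : ℕ) : ℂ)) ?_
      (Set.infinite_range_of_injective fun a b hab => ?_)
    · rintro _ ⟨k, rfl⟩
      show ((k + 1 : ℕ) : ℂ) ≠ 0
      exact Nat.cast_ne_zero.2 (Nat.succ_ne_zero k)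
    · have := Nat.cast_injective (R := ℂ) hab
      omega
  · have h := inSO_iff.1 (hT_SO (bd_one (T i).Q) (bd_one (T i).x) hz)
    refine ⟨?_, fun _ => h.2⟩
    rw [pow_zero]
    exact MG.sim_one.2 h.1

theorem emb_injZ {R : Type} [CommRing R] {u v : ∀ i, Matrix (Fin (n i)) (Fin (n i)) R}
    (h : emb κ u = emb κ v) : u = v := by
  funext i
  rw [← MG.blk_emb (κ := κ) u i, h, MG.blk_emb]

/-- the integral points of the Mumford-Tate group -/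
theorem mem_GZS (hn : ∀ i, 0 < n i) (hB : MG.Big κ (fun i => (T i).Q) (hSum κ T)) {ℓ : ℕ}
    [hp : Fact ℓ.Prime] {g : Matrix (κ ⊕ Σ i, Fin (n i)) (κ ⊕ Σ i, Fin (n i)) ℤ_[ℓ]} :
    g ∈ GZ ℓ (hSum κ T) ↔ ∃ u : ∀ i, Matrix (Fin (n i)) (Fin (n i)) ℤ_[ℓ],
      g = emb κ u ∧ ∀ i, (qm (u i))ᵀ * (T i).Q.map (algebraMap ℚ ℚ_[ℓ]) * qm (u i) =
        (T i).Q.map (algebraMap ℚ ℚ_[ℓ]) ∧ (u i).det = 1 := by
  obtain ⟨e⟩ := _root_.W435.PG.emb ℓ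
  have hinj : Function.Injective (algebraMap ℤ_[ℓ] ℚ_[ℓ]) := Subtype.val_injective
  have hQ : ∀ i, ((T i).Q).det ≠ 0 := fun i => Pool.Agent.W74.PG.det_ne (T i)
  have hdet : ∀ (i : ι) (u : Matrix (Fin (n i)) (Fin (n i)) ℤ_[ℓ]),
      (qm u).det = algebraMap ℤ_[ℓ] ℚ_[ℓ] u.det := by
    intro i u
    rw [RingHom.map_det, RingHom.mapMatrix_apply]
    rfl
  have key : ∀ {g : Matrix (κ ⊕ Σ i, Fin (n i)) (κ ⊕ Σ i, Fin (n i)) ℚ_[ℓ]}, g.det ≠ 0 →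
      (InMT (hSum κ T) g ↔ InG κ (fun i => (T i).Q) (fun _ => 0) g) := fun hg =>
    MG.inMT_iff (fun _ => Or.inl rfl) (fun _ => Or.inl rfl) hQ hn hod_hSum hB e hg
  constructor
  · rintro ⟨h1, h2⟩
    have h3 : (g.map (algebraMap ℤ_[ℓ] ℚ_[ℓ])).det ≠ 0 := by
      have h4 := (algebraMap ℤ_[ℓ] ℚ_[ℓ]).map_det g
      rw [RingHom.mapMatrix_apply] at h4
      rw [← h4]
      exact (map_ne_zero_iff _ hinj).2 h1.ne_zero
    obtain ⟨t, m, hm, ht, hti⟩ := (key h3).1 h2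
    have h6 : ∀ i, t i = (blk g i).map (algebraMap ℤ_[ℓ] ℚ_[ℓ]) := by
      intro i
      rw [← MG.blk_emb (κ := κ) t i, ← ht]
      rfl
    have h5 : g = emb κ (blk g) := by
      apply Matrix.map_injective hinj
      show g.map (algebraMap ℤ_[ℓ] ℚ_[ℓ]) = (emb κ (blk g)).map (algebraMap ℤ_[ℓ] ℚ_[ℓ])
      rw [MG.emb_map, ht]
      congr 1
      funext i
      exact h6 i
    refine ⟨blk g, h5, fun i => ?_⟩
    have h7 := hti i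
    rw [h6 i, pow_zero, MG.sim_one] at h7
    refine ⟨h7.1, hinj ?_⟩
    rw [← hdet, map_one]
    exact h7.2 rfl
  · rintro ⟨u, rfl, hu⟩
    have h1 : (emb κ u).map (algebraMap ℤ_[ℓ] ℚ_[ℓ]) = emb κ fun i => qm (u i) := MG.emb_map _ _
    have h3 : ∀ i, (qm (u i)).det = 1 := fun i => by rw [hdet, (hu i).2, map_one]
    have hG : InG κ (fun i => (T i).Q) (fun _ => 0) ((emb κ u).map (algebraMap ℤ_[ℓ] ℚ_[ℓ])) := by
      rw [h1]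
      refine ⟨_, 1, one_ne_zero, rfl, fun i => ⟨?_, fun _ => h3 i⟩⟩
      rw [one_pow]
      exact MG.sim_one.2 (hu i).1
    have hd : IsUnit (emb κ u).det := by
      rw [← Matrix.isUnit_iff_isUnit_det]
      have h4 : emb κ u * emb κ (fun i => (u i)⁻¹) = 1 := by
        rw [MG.emb_mul, ← MG.emb_one (κ := κ) (n := n) (R := ℤ_[ℓ])]
        congr 1
        funext i
        exact Matrix.mul_nonsing_inv _ (by rw [(hu i).2]; exact isUnit_one)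
      exact ⟨⟨_, _, h4, mul_eq_one_comm.1 h4⟩, rfl⟩
    refine ⟨hd, (key ?_).2 hG⟩
    exact MG.InG.det_ne hQ hG

end hodge

end Pool.Agent.T2H36.IX
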